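import Pool.Agent.R882.CovGT

/-!
Adapted transcendence bases.
-/

set_option autoImplicit false
set_option linter.unusedSectionVars false
set_option linter.overlappingInstances false

open IntermediateField

namespace Pool.Agent.N160.HO

/-- algebraic elements and homomorphisms -/
theorem alg_map {E E' R₁ R₂ : Type} [Field E] [Field E'] [Field R₁] [Field R₂] [Algebra R₁ E]
    [Algebra R₂ E'] (g : E →+* E')
    (h : ∀ r : R₁, ∃ r' : R₂, algebraMap R₂ E' r' = g (algebraMap R₁ E r)) {a : E}
    (ha : IsAlgebraic R₁ a) : IsAlgebraic R₂ (g a) := by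
  choose f hf using h
  have hi := (algebraMap R₂ E').injective
  let φ : R₁ →+* R₂ :=
    { toFun := f
      map_one' := hi (by rw [hf, map_one, map_one, map_one])
      map_mul' := fun x y => hi (by rw [hf, map_mul, map_mul, map_mul, hf, hf])
      map_zero' := hi (by rw [hf, map_zero, map_zero, map_zero])
      map_add' := fun x y => hi (by rw [hf, map_add, map_add, map_add, hf, hf]) }
  exact ha.ringHom_of_comp_eq φ g φ.injective (by ext r; exact hf r)

section

variable {L : Type} [Field L] [Algebra ℂ L]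

/-- the constants of a derivation -/
def cst (D : Derivation ℂ L L) : IntermediateField ℂ L :=
  { carrier := {f | D f = 0}
    mul_mem' := fun {f g} hf hg => by
      change D (f * g) = 0
      rw [D.leibniz, show D f = 0 from hf, show D g = 0 from hg]
      simp
    add_mem' := fun {f g} hf hg => by
      change D (f + g) = 0
      rw [map_add, show D f = 0 from hf, show D g = 0 from hg, add_zero]
    algebraMap_mem' := fun c => D.map_algebraMap c
    inv_mem' := fun f hf => by
      change D f⁻¹ = 0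
      rw [Derivation.leibniz_inv, show D f = 0 from hf, smul_zero] }

theorem mem_cst {D : Derivation ℂ L L} {a : L} : a ∈ cst D ↔ D a = 0 := Iff.rfl

/-- a transcendence basis which contains one of the field of constants -/
theorem adapted {n : ℕ} (hL : Algebra.trdeg ℂ L = n) (D : Derivation ℂ L L) (hD : D ≠ 0) :
    ∃ (l : Fin n → L) (i₀ : Fin n), IsTranscendenceBasis ℂ l ∧
      ∀ a, D a = 0 → IsAlgebraic (IntermediateField.adjoin ℂ (l '' {i | i ≠ i₀})) a := by
  classical
  obtain ⟨s, hs⟩ := exists_isTranscendenceBasis ℂ (cst D)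
  have h1 : AlgebraicIndependent ℂ (fun x : s => ((x : cst D) : L)) :=
    hs.1.map' (f := (cst D).val) (cst D).val.injective
  have h2 : AlgebraicIndependent ℂ
      (fun x : ((fun a : cst D => (a : L)) '' s : Set L) => (x : L)) :=
    AlgebraicIndependent.image (f := fun a : cst D => (a : L)) h1
  obtain ⟨t, hst, ht⟩ := exists_isTranscendenceBasis_superset (R := ℂ)
    (s := ((fun a : cst D => (a : L)) '' s : Set L)) h2
  have hcard := ht.cardinalMk_eq_trdeg
  rw [hL] at hcard
  have h3 : Cardinal.mk t = Cardinal.mk (Fin n) := by simpa using hcard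
  obtain ⟨e⟩ := Cardinal.eq.1 h3
  obtain ⟨l, hl⟩ : ∃ l : Fin n → L, ∀ i, l i = (e.symm i : L) := ⟨_, fun _ => rfl⟩
  have hlb : IsTranscendenceBasis ℂ l := by
    have h4 : l = (fun x : t => (x : L)) ∘ e.symm := funext hl
    rw [h4]
    exact (isTranscendenceBasis_equiv e.symm).2 ht
  obtain ⟨b, hbt, hbs⟩ : ∃ b ∈ t, b ∉ ((fun a : cst D => (a : L)) '' s : Set L) := by
    by_contra hcon
    push Not at hcon
    apply hD
    refine Pool.Agent.W602.GT.der_ext l hlb fun i => ?_
    obtain ⟨a, -, ha⟩ := hcon (l i) (by rw [hl]; exact (e.symm i).2)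
    have h4 : D (l i) = 0 := by
      rw [← ha]
      exact a.2
    rw [h4]
    rfl
  refine ⟨l, e ⟨b, hbt⟩, hlb, fun a ha => ?_⟩
  have h4 := hs.isAlgebraic_field
  have h5 : IsAlgebraic (IntermediateField.adjoin ℂ (Set.range fun x : s => (x : cst D)))
      (⟨a, ha⟩ : cst D) := h4.isAlgebraic _
  have h6 : IntermediateField.adjoin ℂ (Set.range fun x : s => (x : cst D)) ≤
      (IntermediateField.adjoin ℂ (l '' {i | i ≠ e ⟨b, hbt⟩})).comap (cst D).val := by
    rw [IntermediateField.adjoin_le_iff]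
    rintro _ ⟨x, rfl⟩
    have hx : ((x : cst D) : L) ∈ ((fun a : cst D => (a : L)) '' s : Set L) := ⟨x, x.2, rfl⟩
    have h7 : ((x : cst D) : L) = l (e ⟨_, hst hx⟩) := by
      rw [hl, Equiv.symm_apply_apply]
    change ((x : cst D) : L) ∈ IntermediateField.adjoin ℂ (l '' {i | i ≠ e ⟨b, hbt⟩})
    refine IntermediateField.subset_adjoin _ _ ⟨e ⟨_, hst hx⟩, ?_, h7.symm⟩
    intro h8
    have h9 : ((x : cst D) : L) = b := congrArg Subtype.val (e.injective h8)
    apply hbs
    rw [← h9]
    exact hx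
  exact alg_map (cst D).val.toRingHom (R₂ := IntermediateField.adjoin ℂ (l '' {i | i ≠ e ⟨b, hbt⟩}))
    (fun r => ⟨⟨_, h6 r.2⟩, rfl⟩) h5

end

section

variable {Ω : Type} [Field Ω] [Algebra ℂ Ω]

/-- the algebraic closure of the field generated by `S` -/
noncomputable def NN (S : Set Ω) : IntermediateField ℂ Ω :=
  (algebraicClosure (IntermediateField.adjoin ℂ S) Ω).restrictScalars ℂ

theorem mem_NN {S : Set Ω} {a : Ω} : a ∈ NN S ↔ IsAlgebraic (IntermediateField.adjoin ℂ S) a := by
  unfold NN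
  rw [IntermediateField.mem_restrictScalars, mem_algebraicClosure_iff]

theorem NN_closed {S : Set Ω} {a : Ω} (h : IsAlgebraic (NN S) a) : a ∈ NN S := by
  rw [mem_NN]
  have h1 : IsAlgebraic (algebraicClosure (IntermediateField.adjoin ℂ S) Ω) a := by
    obtain ⟨B, hB⟩ : ∃ B : IntermediateField ℂ Ω, B = NN S := ⟨_, rfl⟩
    rw [← hB] at h
    have h3 : ∀ r : B, (r : Ω) ∈ algebraicClosure (IntermediateField.adjoin ℂ S) Ω := by
      intro r
      have h4 : (r : Ω) ∈ NN S := hB ▸ r.2
      rw [mem_NN] at h4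
      rw [mem_algebraicClosure_iff]
      exact h4
    exact alg_map (R₁ := B) (RingHom.id Ω)
      (R₂ := algebraicClosure (IntermediateField.adjoin ℂ S) Ω)
      (fun r => ⟨⟨(r : Ω), h3 r⟩, rfl⟩) h
  have h2 : Algebra.IsAlgebraic (IntermediateField.adjoin ℂ S)
    (algebraicClosure (IntermediateField.adjoin ℂ S) Ω) := algebraicClosure.isAlgebraic _ _
  exact IsAlgebraic.restrictScalars _ h1

theorem subset_NN {S : Set Ω} {a : Ω} (h : a ∈ S) : a ∈ NN S := by
  rw [mem_NN]
  exact isAlgebraic_algebraMap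
    (⟨a, IntermediateField.subset_adjoin ℂ S h⟩ : IntermediateField.adjoin ℂ S)

/-- a derivation which is zero on `S` is zero on the algebraic closure -/
theorem der_NN {S : Set Ω} (δ : Derivation ℂ Ω Ω) (h : ∀ a ∈ S, δ a = 0) {a : Ω}
    (ha : a ∈ NN S) : δ a = 0 := by
  have h1 : IntermediateField.adjoin ℂ S ≤ cst δ := by
    rw [IntermediateField.adjoin_le_iff]
    exact h
  exact Pool.Agent.R882.WR.der_alg (E := IntermediateField.adjoin ℂ S) δ (fun c hc => h1 hc)
    (mem_NN.1 ha)

variable {L : Type} [Field L] [Algebra ℂ L] [Algebra L Ω] [IsScalarTower ℂ L Ω]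

theorem map_NN {T : Set L} {a : L} (h : IsAlgebraic (IntermediateField.adjoin ℂ T) a) :
    algebraMap L Ω a ∈ NN (algebraMap L Ω '' T) := by
  rw [mem_NN]
  have h1 : IntermediateField.adjoin ℂ T ≤
      (IntermediateField.adjoin ℂ (algebraMap L Ω '' T)).comap (IsScalarTower.toAlgHom ℂ L Ω) := by
    rw [IntermediateField.adjoin_le_iff]
    intro y hy
    change algebraMap L Ω y ∈ IntermediateField.adjoin ℂ (algebraMap L Ω '' T)
    exact IntermediateField.subset_adjoin _ _ ⟨y, hy, rfl⟩
  exact alg_map (algebraMap L Ω) (R₂ := IntermediateField.adjoin ℂ (algebraMap L Ω '' T))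
    (fun r => ⟨⟨_, h1 r.2⟩, rfl⟩) h

/-- the whole field is algebraic over the field generated by one more element -/
theorem alg_NN {n : ℕ} {z : Fin n → Ω} (hz : IsTranscendenceBasis ℂ z) (i₀ : Fin n) :
    Algebra.IsAlgebraic (IntermediateField.adjoin (NN (z '' {i | i ≠ i₀})) {z i₀}) Ω := by
  have h1 := hz.isAlgebraic_field
  refine ⟨fun a => ?_⟩
  have h2 : IntermediateField.adjoin ℂ (Set.range z) ≤
      (IntermediateField.adjoin (NN (z '' {i | i ≠ i₀})) {z i₀}).restrictScalars ℂ := by
    rw [IntermediateField.adjoin_le_iff]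
    rintro _ ⟨i, rfl⟩
    change z i ∈ IntermediateField.adjoin (NN (z '' {i | i ≠ i₀})) {z i₀}
    by_cases h : i = i₀
    · rw [h]
      exact IntermediateField.subset_adjoin _ _ rfl
    · exact (IntermediateField.adjoin (NN (z '' {i | i ≠ i₀})) {z i₀}).algebraMap_mem
        ⟨z i, subset_NN ⟨i, h, rfl⟩⟩
  exact alg_map (R₁ := IntermediateField.adjoin ℂ (Set.range z)) (RingHom.id Ω)
    (R₂ := IntermediateField.adjoin (NN (z '' {i | i ≠ i₀})) {z i₀})
    (fun r => ⟨⟨(r : Ω), h2 r.2⟩, rfl⟩) (h1.isAlgebraic a)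

end

end Pool.Agent.N160.HO
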