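import Pool.Agent.N160.HO.Alg
import Pool.Agent.N162.HN.Stm2
import Pool.Agent.N162.HS.Tr

/-!
Project HO (helper162), part GTR: varieties which are not of general type: relations between two
fibres.
-/

set_option autoImplicit false
set_option linter.unusedSectionVars false
set_option linter.overlappingInstances false

open FF Pool.Agent.W603.LV Pool.Agent.Y184.NT Pool.Agent.N162.BC Pool.Agent.W602.GT MvPolynomial
open Pool.Agent.N162.HN
open IntermediateField

namespace Pool.Agent.N160.HO

section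

variable {L K Ω : Type} [Field L] [Algebra ℂ L] [Field K] [Algebra ℂ K]
  [Algebra L K] [IsScalarTower ℂ L K] [FiniteDimensional L K] [Field Ω] [Algebra ℂ Ω]
  [Algebra L Ω] [IsScalarTower ℂ L Ω] [IsAlgClosed Ω] {n : ℕ}

/-- the sum over the embeddings over `L` is the trace -/
theorem sum_fixO (f : (K →ₐ[ℂ] Ω) →₀ Ω)
    (hf : ∀ σ : K →ₐ[ℂ] Ω, (f σ = 1 ∧ Fix L σ) ∨ (f σ = 0 ∧ ¬ Fix L σ)) (a : K) :
    ∑ σ ∈ f.support, σ a = algebraMap L Ω (Algebra.trace L K a) := by
  classical
  have hcL : CharZero L := charZero_of_injective_algebraMap (algebraMap ℂ L).injective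
  have hsep : Algebra.IsSeparable L K := inferInstance
  rw [trace_eq_sum_embeddings (K := L) Ω]
  have h1 : ∀ σ ∈ f.support, f σ = 1 ∧ ∀ a : L, σ (algebraMap L K a) = algebraMap L Ω a := by
    intro σ hσ
    rcases hf σ with h | h
    · exact h
    · exact absurd h.1 (Finsupp.mem_support_iff.1 hσ)
  refine Finset.sum_bij' (fun σ hσ => ({ σ with commutes' := (h1 σ hσ).2 } : K →ₐ[L] Ω))
    (fun τ _ => τ.restrictScalars ℂ) (fun σ hσ => Finset.mem_univ _) (fun τ _ => ?_)
    (fun σ hσ => ?_) (fun τ _ => ?_) (fun σ hσ => ?_)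
  · rw [Finsupp.mem_support_iff]
    intro h0
    rcases hf (τ.restrictScalars ℂ) with h | h
    · rw [h.1] at h0
      exact one_ne_zero h0
    · exact h.2 fun a => τ.commutes a
  · rfl
  · rfl
  · rfl

/-- the value of a form with coefficients in `Ω` at a point given by an embedding -/
theorem eval_pt (x : Fin (n + 2) → K) (σ : K →ₐ[ℂ] Ω) (P : MvPolynomial (Fin (n + 2)) Ω) :
    eval (pt x σ) P = ∑ e ∈ P.support, P.coeff e * σ (aeval x (monomial e (1 : ℂ))) := by
  rw [eval_eq']
  refine Finset.sum_congr rfl fun e _ => ?_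
  congr 1
  rw [aeval_monomial, map_one, one_mul, Finsupp.prod_fintype _ _ (fun i => pow_zero _), map_prod]
  refine Finset.prod_congr rfl fun i _ => ?_
  rw [map_pow]
  rfl

/-- the sum over the fibre -/
theorem fibre_sum {f : (K →ₐ[ℂ] Ω) →₀ Ω}
    (hf : ∀ σ : K →ₐ[ℂ] Ω, (f σ = 1 ∧ Fix L σ) ∨ (f σ = 0 ∧ ¬ Fix L σ)) {l : Fin n → L}
    (hl : IsTranscendenceBasis ℂ (fun j => algebraMap L K (l j)))
    {E' : Fin n → Derivation ℂ K K}
    (hE' : ∀ i j, E' i (algebraMap L K (l j)) = if i = j then 1 else 0) (τ : Ω →ₐ[ℂ] Ω)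
    (c x : Fin (n + 2) → K) (D : Fin n → Derivation ℂ Ω Ω) (P : MvPolynomial (Fin (n + 2)) Ω) :
    ∑ σ ∈ f.support, (rows (fun j => (τ.comp σ) (c j)) (pt x (τ.comp σ)) D).det *
        eval (pt x (τ.comp σ)) P =
      (Matrix.of fun i j => D i (τ (algebraMap L Ω (l j)))).det *
        ∑ e ∈ P.support, P.coeff e * τ (algebraMap L Ω
          (Algebra.trace L K (aeval x (monomial e (1 : ℂ)) * (rows c x E').det))) := by
  have h1 : ∀ σ ∈ f.support, (rows (fun j => (τ.comp σ) (c j)) (pt x (τ.comp σ)) D).det *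
      eval (pt x (τ.comp σ)) P = ∑ e ∈ P.support,
        (Matrix.of fun i j => D i (τ (algebraMap L Ω (l j)))).det * (P.coeff e *
          τ (σ (aeval x (monomial e (1 : ℂ)) * (rows c x E').det))) := by
    intro σ hσ
    have h2 : ∀ a : L, σ (algebraMap L K a) = algebraMap L Ω a := by
      rcases hf σ with h | h
      · exact h.2
      · exact absurd h.1 (Finsupp.mem_support_iff.1 hσ)
    have h3 := Pool.Agent.N162.HS.rows_pull (τ.comp σ) hl hE' D c x
    have h4 : (fun j => (τ.comp σ) (x j)) = pt x (τ.comp σ) := rfl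
    rw [h4] at h3
    rw [h3, eval_pt, Finset.mul_sum]
    refine Finset.sum_congr rfl fun e _ => ?_
    have h5 : ∀ j, (τ.comp σ) (algebraMap L K (l j)) = τ (algebraMap L Ω (l j)) := by
      intro j
      rw [AlgHom.comp_apply, h2]
    simp only [h5]
    rw [AlgHom.comp_apply, AlgHom.comp_apply, map_mul, map_mul]
    ring
  rw [Finset.sum_congr rfl h1, Finset.sum_comm, Finset.mul_sum]
  refine Finset.sum_congr rfl fun e _ => ?_
  rw [← Finset.mul_sum, ← Finset.mul_sum, ← map_sum, sum_fixO f hf]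

end

section

variable {L K : Type} [Field L] [Algebra ℂ L] [Field K] [Algebra ℂ K]
  [Algebra L K] [IsScalarTower ℂ L K] [FiniteDimensional L K] [Algebra.EssFiniteType ℂ L]
  [Algebra.EssFiniteType ℂ K] {n d m : ℕ}

/-- the traces of the residue forms: if the base is not of general type there is a vector field
which kills their ratios -/
theorem exists_der_ratio (hn : 1 ≤ n) (hL : Algebra.trdeg ℂ L = n) {F : MvPolynomial (Fin (n + 2)) ℂ}
    (hs : Sm F) (hF : F.IsHomogeneous d) (hm : m + n + 2 = d) {x c : Fin (n + 2) → K}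
    (hx : aeval x F = 0) (hc : ∑ l, aeval x (pderiv l F) * c l = 1)
    (hgt : ¬ GeneralType ℂ L n) {y : Fin n → L} {E : Fin n → Derivation ℂ L L}
    (hy : IsTranscendenceBasis ℂ y) (hE : ∀ i j, E i (y j) = if i = j then 1 else 0)
    {E' : Fin n → Derivation ℂ K K}
    (hE' : ∀ i f, E' i (algebraMap L K f) = algebraMap L K (E i f))
    (T : {A : MvPolynomial (Fin (n + 2)) ℂ // A.IsHomogeneous m} → L)
    (hT : ∀ A, T A = Algebra.trace L K (aeval x A.1 * (rows c x E').det)) :
    ∃ D : Derivation ℂ L L, D ≠ 0 ∧ ∀ A B, T A * D (T B) = T B * D (T A) := by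
  by_contra hcon
  push Not at hcon
  apply hgt
  have hsep : ∀ D : Derivation ℂ L L, (∀ f g, T f * D (T g) = T g * D (T f)) → D = 0 := by
    intro D hD
    by_contra h0
    obtain ⟨A, B, hAB⟩ := hcon D h0
    exact hAB (hD A B)
  obtain ⟨s, hs0, hs1⟩ := exists_ratios hn hL T hsep
  have hθE : ∀ t, trForm y t E = t := by
    intro t
    have h1 : (Matrix.of fun i j => E i (y j) : Matrix (Fin n) (Fin n) L) = 1 := by
      ext i j
      rw [Matrix.of_apply, hE, Matrix.one_apply]
    rw [trForm, h1, Matrix.det_one, one_mul]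
  have hθr : ∀ A (P : Place ℂ L), Divisorial n P → RegAt P (trForm y (T A)) := by
    intro A P hP
    rw [hT]
    exact trForm_reg hL hy hE hE' (fun D => aeval x A.1 * (rows c x D).det)
      (Pool.Agent.Y988.NT.res_a K n (aeval x A.1) c x)
      (fun Q _ => Pool.Agent.Y988.NT.res_b K n m d F A.1 hs hF A.2 hm c x hx hc Q) P hP
  refine ⟨hL, 1, one_pos, fun j => trForm y (T (s j)), fun j => trForm_pluri y _,
    fun P hP j => hθr _ P hP, E, ?_, ?_⟩
  · change trForm y (T (s 0)) E ≠ 0
    rw [hθE]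
    exact hs0
  · simp only [hθE]
    exact hs1

end

theorem gtr_ (hTAU : StTAU) : Pool.Agent.N162.HN.StGTR := by
  classical
  intro n L K Ω _ _ _ _ _ _ _ _ _ _ _ _ _ _ _ F d m hn hs hF hm x hx0 hx hgen hK hgt f hf
  have hcΩ : CharZero Ω := charZero_of_injective_algebraMap (algebraMap ℂ Ω).injective
  have hL : Algebra.trdeg ℂ L = n := by
    have h1 := trdeg_add_eq ℂ L (A := K)
    have h2 : Algebra.trdeg L K = 0 := trdeg_eq_zero
    rw [h2, add_zero, hK] at h1
    exact h1
  have hf1 : ∀ σ ∈ f.support, f σ = 1 := by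
    intro σ hσ
    rcases hf σ with h | h
    · exact h.1
    · exact absurd h.1 (Finsupp.mem_support_iff.1 hσ)
  by_cases hc0 : ∃ c : Fin (n + 2) → K, ∑ l, aeval x (pderiv l F) * c l = 1
  swap
  · left
    intro c hc
    exact absurd ⟨c, hc⟩ hc0
  obtain ⟨c₀, hc₀⟩ := hc0
  have hdegmon : ∀ P : MvPolynomial (Fin (n + 2)) Ω, P.IsHomogeneous m → ∀ e ∈ P.support,
      (monomial e (1 : ℂ)).IsHomogeneous m := by
    intro P hP e he
    refine isHomogeneous_monomial _ ?_
    have h1 := hP (mem_support_iff.1 he)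
    rw [← h1, Finsupp.degree_eq_weight_one]
    rfl
  -- the first basis
  obtain ⟨y, E, hy, hE⟩ := Pool.Agent.Y172.exists_crd (k := ℂ) (K := L) hL
  choose E' hE' using fun i : Fin n =>
    Pool.Agent.Y172.exists_lift (k := ℂ) (K := L) (L := K) hL (E i)
  have hy2 : IsTranscendenceBasis ℂ (fun j => algebraMap L K (y j)) := hy.algebraMap_comp
  have hE2 := fun i j => Pool.Agent.Y172.lift_dual (L := K) hE hE' i j
  obtain ⟨T, hT⟩ : ∃ T : {A : MvPolynomial (Fin (n + 2)) ℂ // A.IsHomogeneous m} → L,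
    ∀ A, T A = Algebra.trace L K (aeval x A.1 * (rows c₀ x E').det) := ⟨_, fun _ => rfl⟩
  by_cases hT0 : ∀ A, T A = 0
  · -- the first case
    left
    intro c hc D P hP
    have h1 := fibre_sum hf hy2 hE2 (AlgHom.id ℂ Ω) c x D P
    have h2 : ∀ e ∈ P.support, P.coeff e * (AlgHom.id ℂ Ω) (algebraMap L Ω
        (Algebra.trace L K (aeval x (monomial e (1 : ℂ)) * (rows c x E').det))) = 0 := by
      intro e he
      have h3 := hT0 ⟨monomial e (1 : ℂ), hdegmon P hP e he⟩
      rw [hT, Pool.Agent.Y988.NT.k1 hF hx hc₀ hc E'] at h3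
      rw [h3, map_zero, map_zero, mul_zero]
    rw [Finset.sum_eq_zero h2, mul_zero] at h1
    rw [← h1]
    refine Finset.sum_congr rfl fun σ hσ => ?_
    rw [hf1 σ hσ, one_mul, AlgHom.id_comp]
  · -- the second case
    right
    push Not at hT0
    obtain ⟨A₀, hA₀⟩ := hT0
    obtain ⟨D₀, hD₀, hD₀T⟩ := exists_der_ratio hn hL hs hF hm hx hc₀ hgt hy hE hE' T hT
    obtain ⟨l, i₀, hl, hl₀⟩ := adapted hL D₀ hD₀
    choose El hEl using fun i : Fin n => Pool.Agent.W602.GT.exists_der l hl
      fun j => if i = j then (1 : L) else 0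
    choose El' hEl' using fun i : Fin n =>
      Pool.Agent.Y172.exists_lift (k := ℂ) (K := L) (L := K) hL (El i)
    have hl2 : IsTranscendenceBasis ℂ (fun j => algebraMap L K (l j)) := hl.algebraMap_comp
    have hEl2 := fun i j => Pool.Agent.Y172.lift_dual (L := K) hEl hEl' i j
    -- the traces in the new coordinates
    obtain ⟨J, hJ⟩ : ∃ J : L, J = (Matrix.of fun i j => El i (y j) : Matrix (Fin n) (Fin n) L).det :=
      ⟨_, rfl⟩
    have hTl : ∀ A : {A : MvPolynomial (Fin (n + 2)) ℂ // A.IsHomogeneous m},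
        Algebra.trace L K (aeval x A.1 * (rows c₀ x El').det) = J * T A := by
      intro A
      have h1 := Pool.Agent.Y172.pluri_coord hy2 hE2
        (Pool.Agent.Y988.NT.res_a K n (aeval x A.1) c₀ x) El'
      have h2 : (Matrix.of fun i j => El' i (algebraMap L K (y j)) :
          Matrix (Fin n) (Fin n) K).det = algebraMap L K J := by
        rw [hJ, RingHom.map_det]
        congr 1
        ext i j
        rw [Matrix.of_apply, RingHom.mapMatrix_apply, Matrix.map_apply, Matrix.of_apply]
        exact hEl' i (y j)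
      rw [h2, pow_one] at h1
      rw [hT]
      have h3 : aeval x A.1 * (rows c₀ x El').det =
          J • (aeval x A.1 * (rows c₀ x E').det) := by
        rw [Algebra.smul_def]
        exact h1
      rw [h3, map_smul, smul_eq_mul]
    have hJ0 : J ≠ 0 := by
      have h1 := Pool.Agent.Y172.pluri_coord hl hEl (trForm_pluri y (1 : L)) E
      have h2 : trForm y (1 : L) E = 1 := by
        have h3 : (Matrix.of fun i j => E i (y j) : Matrix (Fin n) (Fin n) L) = 1 := by
          ext i j
          rw [Matrix.of_apply, hE, Matrix.one_apply]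
        rw [trForm, h3, Matrix.det_one, one_mul]
      rw [h2] at h1
      intro h0
      have h3 : trForm y (1 : L) El = 0 := by
        unfold trForm
        rw [← hJ, h0, zero_mul]
      rw [h3, mul_zero] at h1
      exact one_ne_zero h1
    -- the field `N`
    have hlΩ : IsTranscendenceBasis ℂ (fun j => algebraMap L Ω (l j)) := hl.algebraMap_comp
    choose δ hδ using fun i : Fin n => Pool.Agent.W602.GT.exists_der _ hlΩ
      fun j => if i = j then (1 : Ω) else 0
    obtain ⟨S, hS⟩ : ∃ S : Set Ω, S = (fun j => algebraMap L Ω (l j)) '' {i | i ≠ i₀} := ⟨_, rfl⟩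
    have hS' : algebraMap L Ω '' (l '' {i | i ≠ i₀}) = S := by
      rw [hS, Set.image_image]
    have hδS : ∀ a ∈ NN S, δ i₀ a = 0 := by
      intro a ha
      refine der_NN (δ i₀) ?_ ha
      intro b hb
      rw [hS] at hb
      obtain ⟨j, hj, rfl⟩ := hb
      exact (hδ i₀ j).trans (if_neg fun h => hj h.symm)
    have hδ1 : δ i₀ (algebraMap L Ω (l i₀)) = 1 := (hδ i₀ i₀).trans (if_pos rfl)
    obtain ⟨r, hr⟩ : ∃ r : {A : MvPolynomial (Fin (n + 2)) ℂ // A.IsHomogeneous m} → L,
      ∀ A, r A = T A / T A₀ := ⟨_, fun _ => rfl⟩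
    have hrN : ∀ A, algebraMap L Ω (r A) ∈ NN S := by
      intro A
      rw [← hS']
      refine map_NN (hl₀ _ ?_)
      have h1 : T A₀ * D₀ (r A) = 0 := by
        have h2 : T A = r A * T A₀ := by
          rw [hr]
          field_simp
        have h3 := hD₀T A₀ A
        rw [h2, D₀.leibniz, smul_eq_mul, smul_eq_mul] at h3
        have h4 : T A₀ * (T A₀ * D₀ (r A)) = 0 := by linear_combination h3
        exact (mul_eq_zero.1 h4).resolve_left hA₀
      exact (mul_eq_zero.1 h1).resolve_left hA₀
    obtain ⟨g, hg⟩ : ∃ g : Ω, g = algebraMap L Ω (J * T A₀) := ⟨_, rfl⟩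
    have hg0 : g ≠ 0 := by
      rw [hg, Ne, map_eq_zero]
      exact mul_ne_zero hJ0 hA₀
    have halgN : Algebra.IsAlgebraic (IntermediateField.adjoin (NN S)
        {algebraMap L Ω (l i₀)}) Ω := by
      rw [hS]
      exact alg_NN hlΩ i₀
    obtain ⟨τ, hτ⟩ := hTAU Ω (NN S) (algebraMap L Ω (l i₀)) (δ i₀) (fun a ha => NN_closed ha)
      (fun h => by
        have h1 := hδS _ h
        rw [hδ1] at h1
        exact one_ne_zero h1) halgN hδS hδ1 g hg0
    have hτN : ∀ a ∈ NN S, τ a = a := fun a ha => τ.commutes ⟨a, ha⟩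
    obtain ⟨w, hw⟩ : ∃ w : Ω, w = δ i₀ (τ (algebraMap L Ω (l i₀))) := ⟨_, rfl⟩
    have hw0 : w * τ g ≠ 0 := by
      have h1 := hτ 0
      rw [Rat.cast_zero, zero_mul, ← hw] at h1
      exact h1
    have hlam : g / (w * τ g) * (w * τ g) = g := div_mul_cancel₀ g hw0
    refine ⟨τ.restrictScalars ℂ, g / (w * τ g), ?_, ?_, ?_⟩
    · intro q hq
      rw [← hq] at hlam
      have hq0 : (q : Ω) ≠ 0 := by
        intro h0
        rw [h0, zero_mul] at hlam
        exact hg0 hlam.symm
      have h1 := hτ q⁻¹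
      rw [← hw] at h1
      apply h1
      rw [Rat.cast_inv]
      rw [eq_comm, inv_mul_eq_iff_eq_mul₀ hq0]
      exact hlam.symm
    · by_contra hcon
      push Not at hcon
      have h1 := hτ 1
      have h2 : τ (algebraMap L Ω (l i₀)) = algebraMap L Ω (l i₀) := hcon (l i₀)
      have h3 : τ g = g := by
        rw [hg]
        exact hcon (J * T A₀)
      rw [h2, h3, hδ1, Rat.cast_one] at h1
      exact h1 rfl
    · intro c hc D P hP
      obtain ⟨τ', hτ'⟩ : ∃ τ' : Ω →ₐ[ℂ] Ω, τ' = ((τ.restrictScalars ℂ : Ω ≃ₐ[ℂ] Ω) : Ω →ₐ[ℂ] Ω) :=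
        ⟨_, rfl⟩
      have hτa : ∀ a, τ' a = τ a := fun a => by rw [hτ']; rfl
      rw [← hτ']
      -- the sums
      obtain ⟨φ, hφ⟩ : ∃ φ : (K →ₐ[ℂ] Ω) → Ω, ∀ σ, φ σ =
        (rows (fun j => σ (c j)) (pt x σ) D).det * eval (pt x σ) P := ⟨_, fun _ => rfl⟩
      have hlin : ∑ σ ∈ (f - (g / (w * τ g)) • f.mapDomain (fun σ => τ'.comp σ)).support,
          (f - (g / (w * τ g)) • f.mapDomain (fun σ => τ'.comp σ)) σ *
            ((rows (fun j => σ (c j)) (pt x σ) D).det * eval (pt x σ) P) =
          ∑ σ ∈ f.support, φ σ - (g / (w * τ g)) * ∑ σ ∈ f.support, φ (τ'.comp σ) := by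
        have e1 : ∀ h : (K →ₐ[ℂ] Ω) →₀ Ω, ∑ σ ∈ h.support, h σ *
            ((rows (fun j => σ (c j)) (pt x σ) D).det * eval (pt x σ) P) =
            Finsupp.linearCombination Ω φ h := by
          intro h
          rw [Finsupp.linearCombination_apply, Finsupp.sum]
          refine Finset.sum_congr rfl fun σ _ => ?_
          rw [hφ, smul_eq_mul]
        rw [e1, map_sub, map_smul, Finsupp.linearCombination_mapDomain,
          Finsupp.linearCombination_apply, Finsupp.linearCombination_apply, Finsupp.sum,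
          Finsupp.sum, smul_eq_mul]
        congr 1
        · refine Finset.sum_congr rfl fun σ hσ => ?_
          rw [hf1 σ hσ, one_smul]
        · congr 1
          refine Finset.sum_congr rfl fun σ hσ => ?_
          rw [hf1 σ hσ, one_smul]
          rfl
      rw [hlin]
      have hh : (rows c x El').det = (rows c₀ x El').det :=
        Pool.Agent.Y988.NT.k1 hF hx hc hc₀ El'
      -- the traces are `r A * g`
      obtain ⟨R, hR⟩ : ∃ R : Ω, R = ∑ e ∈ P.support.attach, P.coeff e.1 *
        algebraMap L Ω (r ⟨monomial e.1 (1 : ℂ), hdegmon P hP e.1 e.2⟩) := ⟨_, rfl⟩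
      have htr : ∀ e (he : e ∈ P.support),
          Algebra.trace L K (aeval x (monomial e (1 : ℂ)) * (rows c x El').det) =
            r ⟨monomial e (1 : ℂ), hdegmon P hP e he⟩ * (J * T A₀) := by
        intro e he
        rw [hh]
        have h1 := hTl ⟨monomial e (1 : ℂ), hdegmon P hP e he⟩
        rw [h1, hr]
        field_simp
      have hsum : ∀ (t : Ω →ₐ[ℂ] Ω), (∀ a ∈ NN S, t a = a) →
          ∑ e ∈ P.support, P.coeff e * t (algebraMap L Ω
            (Algebra.trace L K (aeval x (monomial e (1 : ℂ)) * (rows c x El').det))) =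
            R * t g := by
        intro t ht
        rw [hR, Finset.sum_mul, ← Finset.sum_attach]
        refine Finset.sum_congr rfl fun e _ => ?_
        rw [htr e.1 e.2, map_mul (algebraMap L Ω), ← hg, map_mul t, ht _ (hrN _)]
        ring
      have hS1 : ∑ σ ∈ f.support, φ σ =
          (Matrix.of fun i j => D i (algebraMap L Ω (l j))).det * (R * g) := by
        have h1 := fibre_sum hf hl2 hEl2 (AlgHom.id ℂ Ω) c x D P
        rw [hsum (AlgHom.id ℂ Ω) (fun a _ => rfl)] at h1
        rw [Finset.sum_congr rfl fun σ _ => hφ σ]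
        simp only [AlgHom.id_comp, AlgHom.coe_id, id_eq] at h1
        exact h1
      have hS2 : ∑ σ ∈ f.support, φ (τ'.comp σ) =
          (Matrix.of fun i j => D i (τ (algebraMap L Ω (l j)))).det * (R * τ g) := by
        have h1 := fibre_sum hf hl2 hEl2 τ' c x D P
        rw [hsum τ' (fun a ha => by rw [hτa]; exact hτN a ha)] at h1
        rw [Finset.sum_congr rfl fun σ _ => hφ (τ'.comp σ), h1]
        simp only [hτa]
      have hdet : (Matrix.of fun i j => D i (τ (algebraMap L Ω (l j)))).det =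
          (Matrix.of fun i j => D i (algebraMap L Ω (l j))).det * w := by
        have h1 : (Matrix.of fun i j => D i (τ (algebraMap L Ω (l j)))) =
            (Matrix.of fun i j => D i (algebraMap L Ω (l j))) *
              (Matrix.updateCol (1 : Matrix (Fin n) (Fin n) Ω) i₀
                fun k => δ k (τ (algebraMap L Ω (l i₀)))) := by
          ext i j
          rw [Matrix.mul_apply, Matrix.of_apply,
            der_expand_apply hlΩ hδ (D i) (τ (algebraMap L Ω (l j)))]
          refine Finset.sum_congr rfl fun k _ => ?_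
          rw [Matrix.of_apply]
          congr 1
          by_cases hj : j = i₀
          · rw [hj, Matrix.updateCol_self]
          · rw [Matrix.updateCol_ne hj, Matrix.one_apply]
            have h2 : τ (algebraMap L Ω (l j)) = algebraMap L Ω (l j) := by
              refine hτN _ (subset_NN ?_)
              rw [hS]
              exact ⟨j, hj, rfl⟩
            rw [h2]
            exact hδ k j
        have h2 : (Matrix.updateCol (1 : Matrix (Fin n) (Fin n) Ω) i₀
            fun k => δ k (τ (algebraMap L Ω (l i₀)))).det = w := by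
          rw [← Matrix.cramer_apply, Matrix.cramer_one, hw]
          rfl
        rw [h1, Matrix.det_mul, h2]
      rw [hS1, hS2, hdet]
      linear_combination (-(Matrix.of fun i j => D i (algebraMap L Ω (l j))).det * R) * hlam

end Pool.Agent.N160.HO
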